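import Pool.Agent.Q161.Split

/-!
# Irreducible exact-splittings of infinite permutation classes are not unique

Let `C` be the class of all permutations of length at most `6` other than `123456` and `654321`,
and let `I` be the class of all increasing permutations. The infinite class `C ⊙ I` has the two
irreducible exact-splittings
`{g(1), g(12), g(21), I}` and `{g(1), g(132,213,231,312), I}`.
-/

set_option autoImplicit false

namespace Pool.Agent.Results.MP_673260_co.NonUniqueInfinite

open Finset

/-- all finite permutations -/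
abbrev P := Σ n : ℕ, Equiv.Perm (Fin n)

/-- the subsequence of `π` at the positions `f 0 < f 1 < ⋯` is order-isomorphic to `σ` -/
def OI {k n : ℕ} (σ : Equiv.Perm (Fin k)) (π : Equiv.Perm (Fin n)) (f : Fin k → Fin n) : Prop :=
  StrictMono f ∧ ∀ a b, σ a < σ b ↔ π (f a) < π (f b)

/-- `σ` is contained in `π` -/
def Le {k n : ℕ} (σ : Equiv.Perm (Fin k)) (π : Equiv.Perm (Fin n)) : Prop := ∃ f, OI σ π f

/-- the entries of `π` at the positions in `S` are order-isomorphic to an element of `A` -/
def In {n : ℕ} (A : Set P) (π : Equiv.Perm (Fin n)) (S : Finset (Fin n)) : Prop :=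
  ∃ (k : ℕ) (σ : Equiv.Perm (Fin k)) (f : Fin k → Fin n),
    (⟨k, σ⟩ : P) ∈ A ∧ OI σ π f ∧ univ.image f = S

/-- the merge `A ⊙ B`: the permutations whose entries can be coloured red (the positions in `R`) and
blue (the other positions) so that the red entries are order-isomorphic to an element of `A` and the
blue entries to an element of `B` -/
def Merge (A B : Set P) : Set P := {π | ∃ R : Finset (Fin π.1), In A π.2 R ∧ In B π.2 Rᶜ}

/-- permutation classes: they contain the empty permutation and are closed under containment -/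
structure IsClass (A : Set P) : Prop where
  empty_mem : (⟨0, 1⟩ : P) ∈ A
  down : ∀ {k n : ℕ} (σ : Equiv.Perm (Fin k)) (π : Equiv.Perm (Fin n)), Le σ π →
    (⟨n, π⟩ : P) ∈ A → (⟨k, σ⟩ : P) ∈ A

/-- `C` is exact-splittable: it is the merge of two proper subclasses -/
def ExactSplittable (C : Set P) : Prop :=
  ∃ A B : Set P, IsClass A ∧ IsClass B ∧ A ⊂ C ∧ B ⊂ C ∧ C = Merge A B

/-- `s` is (the set of classes of) an irreducible exact-splitting of `C`: if `C` is not
exact-splittable, this is `{C}`; otherwise it is the union of irreducible exact-splittings of two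
proper subclasses `A`, `B` with `C = A ⊙ B` -/
inductive IrrSplit : Set P → Set (Set P) → Prop
  | irred (C : Set P) : ¬ ExactSplittable C → IrrSplit C {C}
  | split (C A B : Set P) (s t : Set (Set P)) : IsClass A → IsClass B → A ⊂ C → B ⊂ C →
      C = Merge A B → IrrSplit A s → IrrSplit B t → IrrSplit C (s ∪ t)

/-- all permutations of length at most `m`; `Len 1` is `g(1)` -/
def Len (m : ℕ) : Set P := {σ | σ.1 ≤ m}

/-- `I`: all increasing permutations -/
def Inc : Set P := {σ | StrictMono σ.2}

/-- `g(12)`: the increasing permutations of length at most `2` -/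
def G12 : Set P := {σ | σ.1 ≤ 2 ∧ StrictMono σ.2}

/-- `g(21)`: the decreasing permutations of length at most `2` -/
def G21 : Set P := {σ | σ.1 ≤ 2 ∧ StrictAnti σ.2}

/-- `g(132, 213, 231, 312)`: the permutations of length at most `3` other than `123` and `321` -/
def N3 : Set P := {σ | σ.1 ≤ 3 ∧ (σ.1 = 3 → ¬ StrictMono σ.2 ∧ ¬ StrictAnti σ.2)}

/-- `C`: the permutations of length at most `6` other than `123456` and `654321` -/
def C6 : Set P := {σ | σ.1 ≤ 6 ∧ (σ.1 = 6 → ¬ StrictMono σ.2 ∧ ¬ StrictAnti σ.2)}

/-- `C ⊙ I` -/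
def CI : Set P := Merge C6 Inc

theorem isClass_iff (A : Set P) : IsClass A ↔ Q161.Cls.IsClass A :=
  ⟨fun h => ⟨h.1, h.2⟩, fun h => ⟨h.1, h.2⟩⟩

theorem exactSplittable_iff (C : Set P) : ExactSplittable C ↔ Q161.Cls.ExactSplittable C := by
  constructor
  · rintro ⟨A, B, h1, h2, h3⟩
    exact ⟨A, B, (isClass_iff A).1 h1, (isClass_iff B).1 h2, h3⟩
  · rintro ⟨A, B, h1, h2, h3⟩
    exact ⟨A, B, (isClass_iff A).2 h1, (isClass_iff B).2 h2, h3⟩

theorem irrSplit_of {C : Set P} {s : Set (Set P)} (h : Q161.Cls.IrrSplit C s) : IrrSplit C s := by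
  induction h with
  | irred C h => exact IrrSplit.irred C (fun h' => h ((exactSplittable_iff C).1 h'))
  | split C A B s t hA hB h1 h2 h3 _ _ h4 h5 =>
    exact IrrSplit.split C A B s t ((isClass_iff A).2 hA) ((isClass_iff B).2 hB) h1 h2 h3 h4 h5

theorem set1 : ((({Len 1} ∪ {Len 1}) ∪ ({G12} ∪ {G21})) ∪ {Inc} : Set (Set P)) =
    {Len 1, G12, G21, Inc} := by
  ext x
  simp only [Set.mem_union, Set.mem_singleton_iff, Set.mem_insert_iff]
  tauto

theorem set2 : ((({Len 1} ∪ {Len 1}) ∪ ({Len 1} ∪ {N3})) ∪ {Inc} : Set (Set P)) =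
    {Len 1, N3, Inc} := by
  ext x
  simp only [Set.mem_union, Set.mem_singleton_iff, Set.mem_insert_iff]
  tauto

theorem split1 : IrrSplit CI {Len 1, G12, G21, Inc} := by
  rw [← set1]
  exact irrSplit_of Q161.Cls.splitCI1

theorem split2 : IrrSplit CI {Len 1, N3, Inc} := by
  rw [← set2]
  exact irrSplit_of Q161.Cls.splitCI2

theorem sets_ne : ({Len 1, G12, G21, Inc} : Set (Set P)) ≠ {Len 1, N3, Inc} := by
  rw [← set1, ← set2]
  exact Q161.Cls.sets_ne

/-- The class `C ⊙ I`, where `C` consists of all permutations of length at most `6` other than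
`123456` and `654321`, and `I` of all increasing permutations, is infinite and has the two different
irreducible exact-splittings `{g(1), g(12), g(21), I}` and `{g(1), g(132,213,231,312), I}`. In
particular not every infinite permutation class has at most one irreducible exact-splitting. -/
theorem result :
    (IsClass CI ∧ CI.Infinite ∧ IrrSplit CI {Len 1, G12, G21, Inc} ∧
      IrrSplit CI {Len 1, N3, Inc} ∧ ({Len 1, G12, G21, Inc} : Set (Set P)) ≠ {Len 1, N3, Inc}) ∧
    ¬ ∀ C : Set P, IsClass C → C.Infinite → ∀ s t : Set (Set P),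
      IrrSplit C s → IrrSplit C t → s = t := by
  have hc : IsClass CI := (isClass_iff _).2 Q161.Cls.isClass_CI
  refine ⟨⟨hc, Q161.Cls.infinite_CI, split1, split2, sets_ne⟩, ?_⟩
  intro h
  exact sets_ne (h CI hc Q161.Cls.infinite_CI _ _ split1 split2)

end Pool.Agent.Results.MP_673260_co.NonUniqueInfinite
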